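import Pool.Agent.R903.Chow

/-!
# Multiplicative filtrations and products of homologically trivial cycles: definitions
-/

open CategoryTheory CategoryTheory.Limits AlgebraicGeometry
open Pool.Agent.H914 Pool.Agent.H914.VarClass Pool.Agent.H914.VarClass.Obj
open Pool.Agent.R903

universe u v w

namespace Pool.Agent.T2h95.BP

variable {k : Type u} [Field k] {𝒱 : VarClass k} {C : ChowTheory.{u, v} 𝒱}
variable {W : WeilTheory.{u, v, w} C}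

/-- The type of `ℚ`-subspaces of `CH(X)`. -/
abbrev Sub (C : ChowTheory.{u, v} 𝒱) (X : 𝒱.Obj) : Type v := Submodule ℚ (C.CH X)

/-- `x` is in `CH^j(X)_hom`: it is a class in `CH^j(X)` with zero image in cohomology. -/
def IsHomTriv (W : WeilTheory.{u, v, w} C) (X : 𝒱.Obj) (j : ℕ) (x : C.CH X) : Prop :=
  x ∈ C.gr X j ∧ W.cl X x = 0

/-- The family `F^ν CH^j(X)` is decreasing in `ν` with `F^0 = CH^j(X)`, `F^1 = CH^j(X)_hom` and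
`F^(j + 1) = 0`. -/
structure IsFil (W : WeilTheory.{u, v, w} C) (X : 𝒱.Obj) (F : ℕ → ℕ → Sub C X) : Prop where
  anti : ∀ j ν, F j (ν + 1) ≤ F j ν
  zero : ∀ j, F j 0 = C.gr X j
  one : ∀ j x, x ∈ F j 1 ↔ IsHomTriv W X j x
  last : ∀ j, F j (j + 1) = ⊥

/-- `F^k CH^i(X) · F^l CH^j(X) ⊆ F^(k + l) CH^(i + j)(X)`. -/
def IsMul (C : ChowTheory.{u, v} 𝒱) (X : 𝒱.Obj) (F : ℕ → ℕ → Sub C X) : Prop :=
  ∀ i j k l, ∀ x ∈ F i k, ∀ y ∈ F j l, x * y ∈ F (i + j) (k + l)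

/-- `f^* F^ν CH^j(Y) ⊆ F^ν CH^j(X)`. -/
def IsPull (C : ChowTheory.{u, v} 𝒱) {X Y : 𝒱.Obj} (f : X ⟶ Y) (F : ℕ → ℕ → Sub C X)
    (G : ℕ → ℕ → Sub C Y) : Prop :=
  ∀ j ν, ∀ y ∈ G j ν, C.pull f y ∈ F j ν

/-- `f_* F^ν CH^j(X) ⊆ F^ν CH^(j + dim Y - dim X)(Y)`. -/
def IsPush (C : ChowTheory.{u, v} 𝒱) {X Y : 𝒱.Obj} (f : X ⟶ Y) (F : ℕ → ℕ → Sub C X)
    (G : ℕ → ℕ → Sub C Y) : Prop :=
  ∀ j j' ν, j + Y.dim = j' + X.dim → ∀ x ∈ F j ν, C.push f x ∈ G j' ν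

/-- `F` satisfies conditions 1-4 for a Bloch–Beilinson filtration: `F^0 = CH^j`, `F^1 = CH^j_hom`,
`F^(j + 1) = 0`, multiplicative, stable under pull-backs and push-forwards. -/
structure IsMultFil (W : WeilTheory.{u, v, w} C) (F : ∀ X : 𝒱.Obj, ℕ → ℕ → Sub C X) : Prop where
  isFil : ∀ X, IsFil W X (F X)
  isMul : ∀ X, IsMul C X (F X)
  isPull : ∀ (X Y : 𝒱.Obj) (f : X ⟶ Y), IsPull C f (F X) (F Y)
  isPush : ∀ (X Y : 𝒱.Obj) (f : X ⟶ Y), IsPush C f (F X) (F Y)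

/-- For all homologically trivial classes `z 1, …, z n` on `P`, the codimensions of which add up to
`i + dim P - dim Y`, the class `f_* (z 1 ⋯ z n)` in `CH^i(Y)` is zero. -/
def Vanishes (W : WeilTheory.{u, v, w} C) {P Y : 𝒱.Obj} (f : P ⟶ Y) (n i : ℕ) : Prop :=
  ∀ (c : Fin n → ℕ) (z : Fin n → C.CH P), (∀ a, IsHomTriv W P (c a) (z a)) →
    ∑ a, c a + Y.dim = i + P.dim → C.push f (∏ a, z a) = 0

end Pool.Agent.T2h95.BP
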