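import Pool.Agent.T2h95.BP.Defs
import Pool.Agent.R903.Coh
import Pool.Agent.R903.Tensor

/-!
# Multiplicative filtrations and products of homologically trivial cycles
-/

open CategoryTheory CategoryTheory.Limits AlgebraicGeometry
open Pool.Agent.H914 Pool.Agent.H914.VarClass Pool.Agent.H914.VarClass.Obj
open Pool.Agent.R903

universe u v w

namespace Pool.Agent.T2h95.BP

variable {k : Type u} [Field k] {𝒱 : VarClass k} {C : ChowTheory.{u, v} 𝒱}
variable {W : WeilTheory.{u, v, w} C} {X Y Z P Q : 𝒱.Obj}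

/-- `z` is a product of `n + 1` homologically trivial classes, of codimension `c`. -/
inductive IsProd (W : WeilTheory.{u, v, w} C) (P : 𝒱.Obj) : ℕ → ℕ → C.CH P → Prop
  | one {c : ℕ} {z : C.CH P} (h : IsHomTriv W P c z) : IsProd W P 0 c z
  | mul {n c d : ℕ} {z y : C.CH P} (h : IsProd W P n c z) (hy : IsHomTriv W P d y) :
      IsProd W P (n + 1) (c + d) (z * y)

lemma IsProd.fin {n c : ℕ} {z : C.CH P} (h : IsProd W P n c z) :
    ∃ (e : Fin (n + 1) → ℕ) (y : Fin (n + 1) → C.CH P), (∀ a, IsHomTriv W P (e a) (y a)) ∧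
      ∑ a, e a = c ∧ ∏ a, y a = z := by
  induction h with
  | @one c z h => exact ⟨fun _ => c, fun _ => z, fun _ => h, by simp, by simp⟩
  | @mul n c d z y _ hy ih =>
    obtain ⟨e, w, h1, h2, h3⟩ := ih
    refine ⟨Fin.snoc (α := fun _ => ℕ) e d, Fin.snoc (α := fun _ => C.CH P) w y, fun a => ?_,
      ?_, ?_⟩
    · refine Fin.lastCases ?_ (fun a => ?_) a
      · simpa using hy
      · simpa using h1 a
    · rw [Fin.sum_univ_castSucc]
      simp [h2]
    · rw [Fin.prod_univ_castSucc]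
      simp [h3]

lemma isProd_of_fin {n : ℕ} (e : Fin (n + 1) → ℕ) (y : Fin (n + 1) → C.CH P)
    (h : ∀ a, IsHomTriv W P (e a) (y a)) : IsProd W P n (∑ a, e a) (∏ a, y a) := by
  induction n with
  | zero => simpa using IsProd.one (h 0)
  | succ n ih =>
    rw [Fin.prod_univ_castSucc, Fin.sum_univ_castSucc]
    exact IsProd.mul (ih _ _ fun a => h _) (h _)

lemma IsHomTriv.mul {c d : ℕ} {z y : C.CH P} (h : IsHomTriv W P c z) (hy : y ∈ C.gr P d) :
    IsHomTriv W P (c + d) (z * y) :=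
  ⟨C.mul_mem h.1 hy, by rw [W.cl_mul, h.2, zero_mul]⟩

lemma IsHomTriv.pull {c : ℕ} {z : C.CH P} (h : IsHomTriv W P c z) (f : Q ⟶ P) :
    IsHomTriv W Q c (C.pull f z) :=
  ⟨C.pull_mem f h.1, by rw [W.cl_pull, h.2, map_zero]⟩

lemma IsHomTriv.push {c c' : ℕ} {z : C.CH P} (h : IsHomTriv W P c z) (f : P ⟶ Q)
    (hc : c + Q.dim = c' + P.dim) : IsHomTriv W Q c' (C.push f z) :=
  ⟨C.push_mem f h.1 hc, by rw [W.cl_push, h.2, map_zero]⟩

/-- A further factor can be absorbed. -/
lemma IsProd.absorb {n c d : ℕ} {z y : C.CH P} (h : IsProd W P n c z) (hy : y ∈ C.gr P d) :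
    IsProd W P n (c + d) (z * y) := by
  cases h with
  | one h => exact IsProd.one (h.mul hy)
  | mul h hw =>
    rw [mul_assoc, add_assoc]
    exact IsProd.mul h (hw.mul hy)

lemma IsProd.drop {n c : ℕ} {z : C.CH P} (h : IsProd W P (n + 1) c z) : IsProd W P n c z := by
  cases h with
  | mul h hw => exact h.absorb hw.1

lemma IsProd.drop' {n m c : ℕ} {z : C.CH P} (h : IsProd W P n c z) (hm : m ≤ n) :
    IsProd W P m c z := by
  induction n, hm using Nat.le_induction with
  | base => exact h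
  | succ n _ ih => exact ih h.drop

lemma IsProd.pull {n c : ℕ} {z : C.CH P} (h : IsProd W P n c z) (f : Q ⟶ P) :
    IsProd W Q n c (C.pull f z) := by
  induction h with
  | one h => exact IsProd.one (h.pull f)
  | mul _ hw ih => rw [C.pull_mul]; exact IsProd.mul ih (hw.pull f)

lemma IsProd.mem_gr {n c : ℕ} {z : C.CH P} (h : IsProd W P n c z) : z ∈ C.gr P c := by
  induction h with
  | one h => exact h.1
  | mul _ hw ih => exact C.mul_mem ih hw.1

lemma IsProd.mulProd {n m c d : ℕ} {z y : C.CH P} (h : IsProd W P n c z)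
    (h' : IsProd W P m d y) : IsProd W P (n + m + 1) (c + d) (z * y) := by
  induction h' with
  | one h' => exact IsProd.mul h h'
  | mul _ hw ih =>
    rw [← mul_assoc, ← add_assoc c]
    exact IsProd.mul ih hw

/-- `x` is the push-forward to `X` of a product of `n + 1` homologically trivial classes. -/
def IsPushProd (W : WeilTheory.{u, v, w} C) (X : 𝒱.Obj) (j n : ℕ) (x : C.CH X) : Prop :=
  ∃ (P : 𝒱.Obj) (f : P ⟶ X) (c : ℕ) (z : C.CH P), IsProd W P n c z ∧ c + X.dim = j + P.dim ∧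
    C.push f z = x

lemma IsPushProd.homTriv {j n : ℕ} {x : C.CH X} (h : IsPushProd W X j n x) :
    IsHomTriv W X j x := by
  obtain ⟨P, f, c, z, hz, hc, rfl⟩ := h
  cases hz.drop' (Nat.zero_le n) with
  | one h => exact h.push f hc

lemma IsHomTriv.isPushProd {j : ℕ} {x : C.CH X} (h : IsHomTriv W X j x) :
    IsPushProd W X j 0 x :=
  ⟨X, 𝟙 X, j, x, IsProd.one h, rfl, C.push_id X x⟩

lemma IsPushProd.drop {j n : ℕ} {x : C.CH X} (h : IsPushProd W X j (n + 1) x) :
    IsPushProd W X j n x := by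
  obtain ⟨P, f, c, z, hz, hc, hx⟩ := h
  exact ⟨P, f, c, z, hz.drop, hc, hx⟩

/-- Push-forwards of products are stable under correspondences. -/
lemma IsPushProd.act {j j' n e : ℕ} {x : C.CH X} (h : IsPushProd W X j n x)
    {γ : C.CH (X.prod Y)} (hγ : γ ∈ C.gr (X.prod Y) e) (he : j + e = j' + X.dim) :
    IsPushProd W Y j' n (C.act γ x) := by
  obtain ⟨P, f, c, z, hz, hc, rfl⟩ := h
  refine ⟨P.prod Y, snd P Y, c + e, C.pull (fst P Y) z * C.pull (prodMap f (𝟙 Y)) γ,
    (hz.pull _).absorb (C.pull_mem _ hγ), by rw [dim_prod]; omega, ?_⟩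
  rw [C.act_apply, C.pull_fst_push, ← C.mul_push, ← C.push_comp, mul_comm]
  congr 1
  have : prodMap f (𝟙 Y) ≫ snd X Y = snd P Y := by simp
  rw [this]

lemma IsPushProd.ext {i j n m : ℕ} {x : C.CH X} {y : C.CH Y} (h : IsPushProd W X i n x)
    (h' : IsPushProd W Y j m y) : IsPushProd W (X.prod Y) (i + j) (n + m + 1) (C.ext x y) := by
  obtain ⟨P, f, c, z, hz, hc, rfl⟩ := h
  obtain ⟨Q, g, d, t, ht, hd, rfl⟩ := h'
  refine ⟨P.prod Q, prodMap f g, c + d, C.ext z t, (hz.pull _).mulProd (ht.pull _),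
    by simp only [dim_prod]; omega, C.push_prodMap_ext f g z t⟩

/-- The filtration by push-forwards of products. -/
noncomputable def prodF (W : WeilTheory.{u, v, w} C) (X : 𝒱.Obj) : ℕ → ℕ → Sub C X
  | j, 0 => C.gr X j
  | j, n + 1 => Submodule.span ℚ {x | IsPushProd W X j n x}

lemma prodF_succ (X : 𝒱.Obj) (j n : ℕ) :
    prodF W X j (n + 1) = Submodule.span ℚ {x | IsPushProd W X j n x} := rfl

/-- `CH^j(X)_hom` is a subspace. -/
def homSub (W : WeilTheory.{u, v, w} C) (X : 𝒱.Obj) (j : ℕ) : Sub C X where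
  carrier := {x | IsHomTriv W X j x}
  zero_mem' := ⟨Submodule.zero_mem _, map_zero _⟩
  add_mem' := fun ha hb => ⟨Submodule.add_mem _ ha.1 hb.1, by rw [map_add, ha.2, hb.2, add_zero]⟩
  smul_mem' := fun q x hx => ⟨Submodule.smul_mem _ _ hx.1, by rw [W.cl_smul, hx.2, smul_zero]⟩

lemma prodF_act {j j' e ν : ℕ} {x : C.CH X} (hx : x ∈ prodF W X j ν)
    {γ : C.CH (X.prod Y)} (hγ : γ ∈ C.gr (X.prod Y) e) (he : j + e = j' + X.dim) :
    C.act γ x ∈ prodF W Y j' ν := by
  cases ν with
  | zero => exact C.act_mem hγ hx he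
  | succ n =>
    have h1 : (prodF W X j (n + 1)).map (C.act γ) ≤ prodF W Y j' (n + 1) := by
      rw [prodF_succ, Submodule.map_span_le]
      intro x hx
      exact Submodule.subset_span (IsPushProd.act hx hγ he)
    exact h1 ⟨x, hx, rfl⟩

/-- The correspondence `y ↦ x × y`. -/
noncomputable def extL (C : ChowTheory.{u, v} 𝒱) {X : 𝒱.Obj} (x : C.CH X) (Y : 𝒱.Obj) :
    C.CH (Y.prod (X.prod Y)) :=
  C.span (snd X Y) (𝟙 (X.prod Y)) (C.pull (fst X Y) x)

lemma extL_mem {x : C.CH X} {i : ℕ} (hx : x ∈ C.gr X i) :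
    extL C x Y ∈ C.gr (Y.prod (X.prod Y)) (i + Y.dim) :=
  C.span_mem _ _ (C.pull_mem _ hx) (by omega)

lemma act_extL (x : C.CH X) (y : C.CH Y) : C.act (extL C x Y) y = C.ext x y := by
  rw [extL, C.act_span, C.push_id, ChowTheory.ext]

/-- The correspondence `x ↦ x × y`. -/
noncomputable def extR (C : ChowTheory.{u, v} 𝒱) (X : 𝒱.Obj) {Y : 𝒱.Obj} (y : C.CH Y) :
    C.CH (X.prod (X.prod Y)) :=
  C.span (fst X Y) (𝟙 (X.prod Y)) (C.pull (snd X Y) y)

lemma extR_mem {y : C.CH Y} {i : ℕ} (hy : y ∈ C.gr Y i) :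
    extR C X y ∈ C.gr (X.prod (X.prod Y)) (i + X.dim) :=
  C.span_mem _ _ (C.pull_mem _ hy) (by omega)

lemma act_extR (x : C.CH X) (y : C.CH Y) : C.act (extR C X y) x = C.ext x y := by
  rw [extR, C.act_span, C.push_id, ChowTheory.ext, mul_comm]

lemma prodF_ext {i j μ ν : ℕ} {x : C.CH X} {y : C.CH Y} (hx : x ∈ prodF W X i μ)
    (hy : y ∈ prodF W Y j ν) : C.ext x y ∈ prodF W (X.prod Y) (i + j) (μ + ν) := by
  cases μ with
  | zero =>
    rw [← act_extL, zero_add]
    exact prodF_act hy (extL_mem hx) (by omega)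
  | succ n =>
    cases ν with
    | zero =>
      rw [← act_extR]
      exact prodF_act hx (extR_mem hy) (by omega)
    | succ m =>
      rw [show n + 1 + (m + 1) = n + m + 1 + 1 by omega]
      have h1 : ∀ y, IsPushProd W Y j m y → ∀ x ∈ prodF W X i (n + 1),
          C.ext x y ∈ prodF W (X.prod Y) (i + j) (n + m + 1 + 1) := by
        intro y hy x hx
        have hle : (prodF W X i (n + 1)).map (C.act (extR C X y)) ≤
            prodF W (X.prod Y) (i + j) (n + m + 1 + 1) := by
          rw [prodF_succ, Submodule.map_span_le]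
          intro x hx
          rw [act_extR]
          exact Submodule.subset_span (IsPushProd.ext hx hy)
        have := hle ⟨x, hx, rfl⟩
        rwa [act_extR] at this
      have hle : (prodF W Y j (m + 1)).map (C.act (extL C x Y)) ≤
          prodF W (X.prod Y) (i + j) (n + m + 1 + 1) := by
        rw [prodF_succ, Submodule.map_span_le]
        intro y hy
        rw [act_extL]
        exact h1 y hy x hx
      have := hle ⟨y, hy, rfl⟩
      rwa [act_extL] at this

theorem isMultFil_prodF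
    (h : ∀ (P Y : 𝒱.Obj) (f : P ⟶ Y) (n i : ℕ), i < n → Vanishes W f n i) :
    IsMultFil W (prodF W) where
  isFil X :=
    { anti := by
        intro j ν
        cases ν with
        | zero => exact Submodule.span_le.2 fun x hx => hx.homTriv.1
        | succ n => exact Submodule.span_mono fun x hx => hx.drop
      zero := fun _ => rfl
      one := by
        intro j x
        constructor
        · intro hx
          have hle : prodF W X j 1 ≤ homSub W X j := Submodule.span_le.2 fun x hx => hx.homTriv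
          exact hle hx
        · intro hx
          exact Submodule.subset_span hx.isPushProd
      last := by
        intro j
        rw [eq_bot_iff]
        refine Submodule.span_le.2 ?_
        rintro x ⟨P, f, c, z, hz, hc, rfl⟩
        obtain ⟨e, y, h1, h2, h3⟩ := hz.fin
        have := h P X f (j + 1) j (by omega) e y h1 (by rw [h2]; exact hc)
        rw [h3] at this
        exact this }
  isMul X i j μ ν x hx y hy := by
    rw [← C.pull_diag_ext, ← C.act_cograph]
    exact prodF_act (prodF_ext hx hy) (C.cograph_mem _) rfl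
  isPull X Y f j ν y hy := by
    rw [← C.act_cograph]
    exact prodF_act hy (C.cograph_mem _) rfl
  isPush X Y f j j' ν h x hx := by
    rw [← C.act_graph]
    exact prodF_act hx (C.graph_mem _) h

lemma vanishes_of_isMultFil {F : ∀ X : 𝒱.Obj, ℕ → ℕ → Sub C X} (hF : IsMultFil W F)
    (f : P ⟶ Y) {n i : ℕ} (hi : i < n) : Vanishes W f n i := by
  intro c z hz hc
  obtain ⟨m, rfl⟩ : ∃ m, n = m + 1 := ⟨n - 1, by omega⟩
  have h1 : ∀ {n c : ℕ} {z : C.CH P}, IsProd W P n c z → z ∈ F P c (n + 1) := by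
    intro n c z h
    induction h with
    | one h => exact ((hF.isFil P).one _ _).2 h
    | mul _ hw ih => exact hF.isMul P _ _ _ _ _ ih _ (((hF.isFil P).one _ _).2 hw)
  have h2 := hF.isPush P Y f _ i _ hc _ (h1 (isProd_of_fin c z hz))
  have h3 : F Y i (m + 1) ≤ F Y i (i + 1) :=
    antitone_nat_of_succ_le (f := F Y i) ((hF.isFil Y).anti i) (by omega)
  have h4 := h3 h2
  rwa [(hF.isFil Y).last i, Submodule.mem_bot] at h4

lemma vanishes_of_snd
    (h : ∀ (X Y : 𝒱.Obj) (i : ℕ), Vanishes W (snd X Y) (i + 1) i) (f : P ⟶ Y) {n i : ℕ}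
    (hi : i < n) : Vanishes W f n i := by
  intro c z hz hc
  obtain ⟨m, rfl⟩ : ∃ m, n = m + 1 := ⟨n - 1, by omega⟩
  have h1 : IsPushProd W Y i m (C.push f (∏ a, z a)) :=
    ⟨P, f, _, _, isProd_of_fin c z hz, hc, rfl⟩
  have h2 : IsProd W P i (∑ a, c a) (∏ a, z a) := (isProd_of_fin c z hz).drop' (by omega)
  rw [← C.act_graph, C.act_apply]
  have h3 : IsProd W (P.prod Y) i (∑ a, c a + Y.dim) (C.pull (fst P Y) (∏ a, z a) * C.graph f) :=
    (h2.pull _).absorb (C.graph_mem f)
  obtain ⟨e, y, h4, h5, h6⟩ := h3.fin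
  have h7 := h P Y i e y h4 (by rw [h5, dim_prod]; omega)
  rw [h6, mul_comm] at h7
  exact h7

theorem tfae (W : WeilTheory.{u, v, w} C) :
    List.TFAE [
      ∃ F, IsMultFil W F,
      ∀ (P Y : 𝒱.Obj) (f : P ⟶ Y) (n i : ℕ), i < n → Vanishes W f n i,
      ∀ (X Y : 𝒱.Obj) (i : ℕ), Vanishes W (snd X Y) (i + 1) i] := by
  tfae_have 1 → 2 := by
    rintro ⟨F, hF⟩ P Y f n i hi
    exact vanishes_of_isMultFil hF f hi
  tfae_have 2 → 3 := fun h X Y i => h _ _ _ _ _ (Nat.lt_succ_self i)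
  tfae_have 3 → 1 := fun h => ⟨_, isMultFil_prodF fun P Y f n i hi => vanishes_of_snd h f hi⟩
  tfae_finish

end Pool.Agent.T2h95.BP
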